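import Mathlib

/-!
# MP_cc8356_al: the number of generators of normal subgroups of 2-groups in which every element is
conjugate to its fifth power (helper40): homomorphisms to `±1`
-/

set_option autoImplicit false

namespace Pool.Agent.H40.RG

section

variable {G : Type*} [Group G]

open Classical in
/-- the value of a homomorphism on a subgroup at an element of the group -/
noncomputable def ev {U : Subgroup G} (φ : U →* ℤˣ) (a : G) : ℤˣ :=
  if h : a ∈ U then φ ⟨a, h⟩ else 1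

variable {U : Subgroup G}

theorem ev_of (φ : U →* ℤˣ) {a : G} (h : a ∈ U) : ev φ a = φ ⟨a, h⟩ := dif_pos h

theorem ev_mul (φ : U →* ℤˣ) {a b : G} (ha : a ∈ U) (hb : b ∈ U) :
    ev φ (a * b) = ev φ a * ev φ b := by
  rw [ev_of φ ha, ev_of φ hb, ev_of φ (mul_mem ha hb), ← map_mul]
  rfl

theorem ev_one (φ : U →* ℤˣ) : ev φ 1 = 1 := by
  rw [ev_of φ (one_mem U)]
  exact map_one φ

theorem ev_inv (φ : U →* ℤˣ) {a : G} (ha : a ∈ U) : ev φ a⁻¹ = (ev φ a)⁻¹ := by
  rw [eq_inv_iff_mul_eq_one, ← ev_mul φ (inv_mem ha) ha, inv_mul_cancel, ev_one]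

theorem ev_pow (φ : U →* ℤˣ) {a : G} (ha : a ∈ U) (n : ℕ) : ev φ (a ^ n) = ev φ a ^ n := by
  induction n with
  | zero => rw [pow_zero, pow_zero, ev_one]
  | succ n ih => rw [pow_succ, pow_succ, ev_mul φ (pow_mem ha n) ha, ih]

theorem ext_ev {φ ψ : U →* ℤˣ} (h : ∀ a ∈ U, ev φ a = ev ψ a) : φ = ψ := by
  ext ⟨a, ha⟩ : 1
  rw [← ev_of φ ha, ← ev_of ψ ha, h a ha]

theorem ev_mul_hom (φ ψ : U →* ℤˣ) (a : G) : ev (φ * ψ) a = ev φ a * ev ψ a := by
  by_cases h : a ∈ U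
  · rw [ev_of _ h, ev_of _ h, ev_of _ h]
    rfl
  · unfold ev
    rw [dif_neg h, dif_neg h, dif_neg h, one_mul]

theorem ev_one_hom (a : G) : ev (1 : U →* ℤˣ) a = 1 := by
  by_cases h : a ∈ U
  · rw [ev_of _ h]
    rfl
  · unfold ev
    rw [dif_neg h]

theorem ev_inv_hom (φ : U →* ℤˣ) (a : G) : ev (φ⁻¹) a = (ev φ a)⁻¹ := by
  rw [eq_inv_iff_mul_eq_one, ← ev_mul_hom, inv_mul_cancel, ev_one_hom]

theorem un_sq (u : ℤˣ) : u * u = 1 := Int.units_mul_self u

/-- two finite counts -/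
theorem card_ker_range {A B : Type*} [Group A] [Group B] [Finite A] (f : A →* B) :
    Nat.card A = Nat.card f.range * Nat.card f.ker := by
  rw [Subgroup.card_eq_card_quotient_mul_card_subgroup f.ker]
  congr 1
  exact Nat.card_congr (QuotientGroup.quotientKerEquivRange f).toEquiv

variable [U.Normal]

/-- the action of an element by conjugation -/
noncomputable def act (t : G) (φ : U →* ℤˣ) : U →* ℤˣ :=
  φ.comp (MulAut.conjNormal (H := U) t).toMonoidHom

theorem ev_act (t : G) (φ : U →* ℤˣ) {a : G} (ha : a ∈ U) :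
    ev (act t φ) a = ev φ (t * a * t⁻¹) := by
  have h : t * a * t⁻¹ ∈ U := Subgroup.Normal.conj_mem inferInstance a ha t
  rw [ev_of _ ha, ev_of _ h]
  unfold act
  rw [MonoidHom.comp_apply]
  congr 1

/-- the difference -/
noncomputable def dl (U : Subgroup G) [U.Normal] (t : G) : (U →* ℤˣ) →* (U →* ℤˣ) where
  toFun φ := act t φ * φ
  map_one' := by
    apply ext_ev
    intro a ha
    rw [ev_mul_hom, ev_act t _ ha, ev_one_hom, ev_one_hom, one_mul]
  map_mul' φ ψ := by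
    apply ext_ev
    intro a ha
    rw [ev_mul_hom, ev_mul_hom, ev_act t _ ha, ev_mul_hom, ev_mul_hom, ev_mul_hom, ev_mul_hom,
      ev_act t _ ha, ev_act t _ ha]
    exact mul_mul_mul_comm _ _ _ _

theorem ev_dl (t : G) (φ : U →* ℤˣ) {a : G} (ha : a ∈ U) :
    ev (dl U t φ) a = ev φ (t * a * t⁻¹) * ev φ a := by
  show ev (act t φ * φ) a = _
  rw [ev_mul_hom, ev_act t _ ha]

/-- the invariant homomorphisms -/
def Inv (U : Subgroup G) (t : G) : Subgroup (U →* ℤˣ) where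
  carrier := {φ | ∀ a ∈ U, ev φ (t * a * t⁻¹) = ev φ a}
  one_mem' a _ := by rw [ev_one_hom, ev_one_hom]
  mul_mem' {φ ψ} h1 h2 a ha := by rw [ev_mul_hom, ev_mul_hom, h1 a ha, h2 a ha]
  inv_mem' {φ} h1 a ha := by rw [ev_inv_hom, ev_inv_hom, h1 a ha]

omit [U.Normal] in
theorem mem_Inv {t : G} {φ : U →* ℤˣ} : φ ∈ Inv U t ↔ ∀ a ∈ U, ev φ (t * a * t⁻¹) = ev φ a :=
  Iff.rfl

theorem dl_eq_one {t : G} {φ : U →* ℤˣ} : dl U t φ = 1 ↔ φ ∈ Inv U t := by
  rw [mem_Inv]
  constructor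
  · intro h a ha
    have h1 := ev_dl t φ ha
    rw [h, ev_one_hom] at h1
    have h2 : ev φ (t * a * t⁻¹) = (ev φ a)⁻¹ := eq_inv_of_mul_eq_one_left h1.symm
    rw [h2, inv_eq_iff_mul_eq_one, un_sq]
  · intro h
    apply ext_ev
    intro a ha
    rw [ev_dl t φ ha, h a ha, un_sq, ev_one_hom]

variable [Finite G]

theorem card_Inv_sq (t : G) : Nat.card (Inv U (t * t)) ≤ Nat.card (Inv U t) ^ 2 := by
  have h1 := card_ker_range ((dl U t).comp (Inv U (t * t)).subtype)
  rw [h1, pow_two]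
  refine Nat.mul_le_mul ?_ ?_
  · refine Nat.card_le_card_of_injective
      (fun ψ : ((dl U t).comp (Inv U (t * t)).subtype).range => (⟨ψ.1, ?_⟩ : Inv U t)) ?_
    · obtain ⟨⟨φ, hφ⟩, hψ⟩ := ψ.2
      rw [← hψ]
      show dl U t φ ∈ Inv U t
      intro a ha
      have ha' : t * a * t⁻¹ ∈ U := Subgroup.Normal.conj_mem inferInstance a ha t
      rw [ev_dl t φ ha', ev_dl t φ ha]
      have h2 : t * (t * a * t⁻¹) * t⁻¹ = t * t * a * (t * t)⁻¹ := by group
      rw [h2, hφ a ha, mul_comm]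
    · intro x y h
      exact Subtype.ext (Subtype.mk.inj h)
  · refine Nat.card_le_card_of_injective
      (fun ψ : ((dl U t).comp (Inv U (t * t)).subtype).ker => (⟨ψ.1.1, ?_⟩ : Inv U t)) ?_
    · exact dl_eq_one.1 ψ.2
    · intro x y h
      exact Subtype.ext (Subtype.ext (Subtype.mk.inj h))

theorem card_Hom_le (a : ℕ) : ∀ t : G, t ^ (2 ^ a) ∈ U →
    Nat.card (U →* ℤˣ) ≤ Nat.card (Inv U t) ^ (2 ^ a) := by
  induction a with
  | zero =>
    intro t ht
    rw [pow_zero, pow_one] at ht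
    rw [pow_zero, pow_one]
    refine Nat.card_le_card_of_injective
      (fun φ : U →* ℤˣ => (⟨φ, fun b hb => ?_⟩ : Inv U t)) ?_
    · rw [ev_mul φ (mul_mem ht hb) (inv_mem ht), ev_mul φ ht hb, ev_inv φ ht]
      exact mul_inv_cancel_comm _ _
    · intro x y h
      exact congrArg Subtype.val h
  | succ a ih =>
    intro t ht
    have h1 : (t * t) ^ (2 ^ a) ∈ U := by
      have h2 : (t * t) ^ (2 ^ a) = t ^ (2 ^ (a + 1)) := by
        rw [← pow_two, ← pow_mul, pow_succ 2 a, mul_comm]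
      rw [h2]
      exact ht
    refine (ih (t * t) h1).trans ?_
    refine (Nat.pow_le_pow_left (card_Inv_sq t) _).trans (le_of_eq ?_)
    rw [← pow_mul, pow_succ 2 a, mul_comm]

end

end Pool.Agent.H40.RG
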