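import Pool.Agent.H40.RG.Ext

/-!
# MP_cc8356_al: the number of generators of a 2-group (helper40)
-/

set_option autoImplicit false

namespace Pool.Agent.H40.RG

section

variable {A : Type*} [Group A] [Finite A]

/-- homomorphisms to `±1` are determined by their values at generators -/
theorem card_hom_le_rank : Nat.card (A →* ℤˣ) ≤ 2 ^ Group.rank A := by
  classical
  obtain ⟨S, hS, hc⟩ := Group.rank_spec A
  have h1 : Nat.card (A →* ℤˣ) ≤ Nat.card (S → ℤˣ) := by
    refine Nat.card_le_card_of_injective (fun φ : A →* ℤˣ => fun s : S => φ s) ?_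
    intro φ ψ h
    refine MonoidHom.eq_of_eqOn_dense hc fun s hs => ?_
    exact congrFun h ⟨s, hs⟩
  refine h1.trans (le_of_eq ?_)
  rw [Nat.card_fun, Nat.card_eq_fintype_card (α := S), Fintype.card_coe, hS,
    Nat.card_eq_fintype_card, Fintype.card_units_int]

/-- the homomorphisms trivial on a set -/
def Ann (S : Set A) : Subgroup (A →* ℤˣ) where
  carrier := {φ | ∀ s ∈ S, φ s = 1}
  one_mem' s _ := rfl
  mul_mem' {φ ψ} h1 h2 s hs := by rw [MonoidHom.mul_apply, h1 s hs, h2 s hs, one_mul]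
  inv_mem' {φ} h1 s hs := by rw [MonoidHom.inv_apply, h1 s hs, inv_one]

theorem exists_sep (S : Finset A) (h : Ann (S : Set A) ≠ ⊥)
    (hS : Nat.card (Ann (S : Set A)) * 2 ^ S.card ≤ Nat.card (A →* ℤˣ)) :
    ∃ T : Finset A, T.card = S.card + 1 ∧
      Nat.card (Ann (T : Set A)) * 2 ^ T.card ≤ Nat.card (A →* ℤˣ) := by
  classical
  obtain ⟨⟨φ, hφ⟩, hφ1'⟩ := Subgroup.ne_bot_iff_exists_ne_one.1 h
  have hφ1 : φ ≠ 1 := fun e => hφ1' (Subtype.ext e)
  obtain ⟨u, hu⟩ : ∃ u, φ u ≠ 1 := by
    by_contra hcon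
    push Not at hcon
    exact hφ1 (MonoidHom.ext hcon)
  have hus : u ∉ S := fun hus => hu (hφ u hus)
  refine ⟨insert u S, Finset.card_insert_of_notMem hus, ?_⟩
  rw [Finset.card_insert_of_notMem hus]
  set f : Ann (S : Set A) →* ℤˣ := (MonoidHom.eval u).comp (Ann (S : Set A)).subtype with hf
  have h1 := card_ker_range f
  have h2 : Nat.card f.range = 2 := by
    have h3 : f.range = ⊤ := by
      rw [MonoidHom.range_eq_top]
      intro y
      rcases Int.units_eq_one_or y with rfl | rfl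
      · exact ⟨1, map_one f⟩
      · refine ⟨⟨φ, hφ⟩, ?_⟩
        show φ u = -1
        rcases Int.units_eq_one_or (φ u) with h | h
        · exact absurd h hu
        · exact h
    rw [h3, Subgroup.card_top, Nat.card_eq_fintype_card, Fintype.card_units_int]
  have h4 : Nat.card (Ann ((insert u S : Finset A) : Set A)) ≤ Nat.card f.ker := by
    refine Nat.card_le_card_of_injective
      (fun ψ : Ann ((insert u S : Finset A) : Set A) =>
        (⟨⟨ψ.1, fun s hs => ψ.2 s (by simp [Finset.mem_coe.1 hs])⟩,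
          ψ.2 u (by simp)⟩ : f.ker)) ?_
    intro a b hab
    exact Subtype.ext (Subtype.mk.inj (Subtype.mk.inj hab))
  rw [h2] at h1
  calc Nat.card (Ann ((insert u S : Finset A) : Set A)) * 2 ^ (S.card + 1)
      ≤ Nat.card f.ker * 2 ^ (S.card + 1) := Nat.mul_le_mul_right _ h4
    _ = Nat.card (Ann (S : Set A)) * 2 ^ S.card := by rw [h1, pow_succ]; ring
    _ ≤ _ := hS

theorem exists_index_two (hp : IsPGroup 2 A) (M : Subgroup A) (hM : M ≠ ⊤) :
    ∃ K : Subgroup A, M ≤ K ∧ K.index = 2 := by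
  classical
  obtain ⟨K, hK, hMK⟩ := (eq_top_or_exists_le_coatom M).resolve_left hM
  refine ⟨K, hMK, ?_⟩
  have : Fact (Nat.Prime 2) := ⟨Nat.prime_two⟩
  obtain ⟨a, ha⟩ := IsPGroup.iff_card.1 hp
  obtain ⟨b, hb⟩ := IsPGroup.iff_card.1 (hp.to_subgroup K)
  have h1 := Subgroup.index_mul_card K
  rw [ha, hb] at h1
  have hab : b < a := by
    by_contra hcon
    push Not at hcon
    have h2 : 2 ^ a ≤ 2 ^ b := Nat.pow_le_pow_right two_pos hcon
    apply hK.1
    apply Subgroup.eq_top_of_card_eq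
    rw [ha, hb]
    refine le_antisymm ?_ h2
    rw [← ha, ← hb]
    exact Subgroup.card_le_card_group K
  obtain ⟨L, hL, hKL⟩ := Sylow.exists_subgroup_card_pow_succ (G := A) (p := 2) (n := b)
    (by rw [ha]; exact pow_dvd_pow 2 hab) hb
  have hKL' : K < L := by
    refine lt_of_le_of_ne hKL fun h => ?_
    rw [← h, hb] at hL
    have h5 : 0 < 2 ^ b := pow_pos two_pos b
    rw [pow_succ] at hL
    omega
  have hLt : L = ⊤ := hK.2 L hKL'
  rw [hLt, Subgroup.card_top, ha] at hL
  rw [hL, pow_succ, mul_comm] at h1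
  exact Nat.eq_of_mul_eq_mul_left (pow_pos two_pos b) h1

theorem closure_eq_top (hp : IsPGroup 2 A) (S : Set A) (h : Ann S = ⊥) :
    Subgroup.closure S = ⊤ := by
  classical
  by_contra hne
  obtain ⟨K, hK, hi⟩ := exists_index_two hp _ hne
  set φ : A →* ℤˣ := MonoidHom.mk' (fun a => if a ∈ K then 1 else -1) (by
    intro a b
    have h1 := Subgroup.mul_mem_iff_of_index_two hi (a := a) (b := b)
    by_cases ha : a ∈ K <;> by_cases hb : b ∈ K <;> simp [ha, hb, h1]) with hφ
  have h1 : φ ∈ Ann S := fun s hs => if_pos (hK (Subgroup.subset_closure hs))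
  rw [h, Subgroup.mem_bot] at h1
  have h2 : K = ⊤ := by
    rw [eq_top_iff]
    intro a _
    by_contra ha
    have h3 : φ a = -1 := if_neg ha
    rw [h1, MonoidHom.one_apply] at h3
    exact absurd h3 (by decide)
  rw [h2, Subgroup.index_top] at hi
  exact absurd hi (by norm_num)

/-- the rank of a finite 2-group -/
theorem two_pow_rank_le (hp : IsPGroup 2 A) : 2 ^ Group.rank A ≤ Nat.card (A →* ℤˣ) := by
  classical
  have key : ∀ k : ℕ, (∃ S : Finset A, Ann (S : Set A) = ⊥ ∧ 2 ^ S.card ≤ Nat.card (A →* ℤˣ)) ∨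
      ∃ S : Finset A, S.card = k ∧
        Nat.card (Ann (S : Set A)) * 2 ^ S.card ≤ Nat.card (A →* ℤˣ) := by
    intro k
    induction k with
    | zero =>
      right
      refine ⟨∅, rfl, ?_⟩
      rw [Finset.card_empty, pow_zero, mul_one]
      exact Subgroup.card_le_card_group _
    | succ k ih =>
      rcases ih with ih | ⟨S, hS, hc⟩
      · exact Or.inl ih
      · by_cases h : Ann (S : Set A) = ⊥
        · left
          refine ⟨S, h, ?_⟩
          rwa [h, Subgroup.card_bot, one_mul] at hc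
        · right
          obtain ⟨T, hT, hc'⟩ := exists_sep S h hc
          exact ⟨T, by rw [hT, hS], hc'⟩
  rcases key (Nat.card A + 1) with ⟨S, hS, hc⟩ | ⟨S, hS, -⟩
  · refine le_trans (Nat.pow_le_pow_right two_pos ?_) hc
    exact Group.rank_le (closure_eq_top hp _ hS)
  · exfalso
    have := Fintype.ofFinite A
    have h1 := Finset.card_le_univ S
    rw [hS, Nat.card_eq_fintype_card] at h1
    omega

end

end Pool.Agent.H40.RG
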