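import Pool.Agent.H40.RG.Basic

/-!
# MP_cc8356_al: the covering argument (helper40)
-/

set_option autoImplicit false

namespace Pool.Agent.H40.RG

/-- a finite group has at most as many homomorphisms to `±1` as elements -/
theorem card_hom_le_card (A : Type*) [Group A] [Finite A] :
    Nat.card (A →* ℤˣ) ≤ Nat.card A := by
  classical
  have := Fintype.ofFinite A
  have := Fintype.ofFinite (A →* ℤˣ)
  set c : ℤˣ →* ℚ := (Int.castRingHom ℚ).toMonoidHom.comp (Units.coeHom ℤ) with hc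
  have hcinj : Function.Injective c := by
    intro a b h
    have h1 : (((a : ℤˣ) : ℤ) : ℚ) = (((b : ℤˣ) : ℤ) : ℚ) := h
    exact Units.ext (by exact_mod_cast h1)
  have hinj : Function.Injective fun φ : A →* ℤˣ => c.comp φ := by
    intro φ ψ h
    ext a : 1
    exact hcinj (DFunLike.congr_fun h a)
  have h1 := (linearIndependent_monoidHom A ℚ).comp _ hinj
  have h2 := h1.fintype_card_le_finrank
  rw [Module.finrank_fintype_fun_eq_card] at h2
  rw [Nat.card_eq_fintype_card, Nat.card_eq_fintype_card]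
  exact h2

section

variable {G : Type*} [Group G] {U : Subgroup G} [U.Normal]

theorem inv_pow {x : G} {φ : U →* ℤˣ} (hφ : φ ∈ Inv U x) (j : ℕ) {a : G} (ha : a ∈ U) :
    ev φ (x ^ j * a * (x ^ j)⁻¹) = ev φ a := by
  induction j with
  | zero => simp
  | succ j ih =>
    have h1 : x ^ (j + 1) * a * (x ^ (j + 1))⁻¹ = x * (x ^ j * a * (x ^ j)⁻¹) * x⁻¹ := by
      rw [pow_succ' x j]
      group
    rw [h1, hφ _ (Subgroup.Normal.conj_mem inferInstance a ha _), ih]

omit [U.Normal] in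
theorem inv_U {φ : U →* ℤˣ} {u a : G} (hu : u ∈ U) (ha : a ∈ U) :
    ev φ (u * a * u⁻¹) = ev φ a := by
  rw [ev_mul φ (mul_mem hu ha) (inv_mem hu), ev_mul φ hu ha, ev_inv φ hu]
  exact mul_inv_cancel_comm _ _

theorem inv_prod {x : G} {φ : U →* ℤˣ} (hφ : φ ∈ Inv U x) (j : ℕ) {u a : G} (hu : u ∈ U)
    (ha : a ∈ U) : ev φ (u * x ^ j * a * (u * x ^ j)⁻¹) = ev φ a := by
  have h1 : u * x ^ j * a * (u * x ^ j)⁻¹ = u * (x ^ j * a * (x ^ j)⁻¹) * u⁻¹ := by group
  rw [h1, inv_U hu (Subgroup.Normal.conj_mem inferInstance a ha _), inv_pow hφ j ha]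

/-- the defect of `g` -/
def vv (x g : G) : G := (x ^ 5)⁻¹ * (g * x * g⁻¹)

/-- the condition -/
def Cond (U : Subgroup G) (x u g : G) : Prop :=
  vv x g ∈ U ∧ ∀ φ ∈ Inv U x, ev φ (vv x g) * ev φ (g * u * g⁻¹) = ev φ u

theorem pw (x : G) {u : G} (hu : u ∈ U) (k : ℕ) : (x ^ k)⁻¹ * (x * u) ^ k ∈ U ∧
    ∀ φ ∈ Inv U x, ev φ ((x ^ k)⁻¹ * (x * u) ^ k) = ev φ u ^ k := by
  induction k with
  | zero =>
    refine ⟨?_, fun φ _ => ?_⟩
    · simp [one_mem]
    · rw [pow_zero, pow_zero, pow_zero, inv_one, one_mul, ev_one]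
  | succ k ih =>
    have h1 : (x ^ (k + 1))⁻¹ * (x * u) ^ (k + 1) =
        (x⁻¹ * ((x ^ k)⁻¹ * (x * u) ^ k) * x) * u := by
      rw [pow_succ x k, pow_succ (x * u) k]
      group
    have h2 : x⁻¹ * ((x ^ k)⁻¹ * (x * u) ^ k) * x ∈ U := by
      have h := Subgroup.Normal.conj_mem (H := U) inferInstance _ ih.1 x⁻¹
      rwa [inv_inv] at h
    refine ⟨?_, fun φ hφ => ?_⟩
    · rw [h1]
      exact mul_mem h2 hu
    · rw [h1, ev_mul φ h2 hu, pow_succ, ← ih.2 φ hφ, ← hφ _ h2]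
      congr 2
      group

theorem un_five (u : ℤˣ) : u ^ 5 = u := by
  rw [pow_succ, show (4 : ℕ) = 2 * 2 from rfl, pow_mul, Int.units_sq, one_mul]

theorem cond_of_conj {x u g : G} (hu : u ∈ U) (h : g * (x * u) * g⁻¹ = (x * u) ^ 5) :
    Cond U x u g := by
  have h1 : vv x g * (g * u * g⁻¹) = (x ^ 5)⁻¹ * (x * u) ^ 5 := by
    rw [← h]
    unfold vv
    group
  have h2 : g * u * g⁻¹ ∈ U := Subgroup.Normal.conj_mem inferInstance u hu g
  have h3 := pw x hu 5
  have h4 : vv x g ∈ U := by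
    have h5 : vv x g = (x ^ 5)⁻¹ * (x * u) ^ 5 * (g * u * g⁻¹)⁻¹ := by
      rw [← h1, mul_inv_cancel_right]
    rw [h5]
    exact mul_mem h3.1 (inv_mem h2)
  refine ⟨h4, fun φ hφ => ?_⟩
  rw [← ev_mul φ h4 h2, h1, h3.2 φ hφ, un_five]

theorem cond_mul {x u g u₀ : G} (hu : u ∈ U) (h : Cond U x u g) (hu₀ : u₀ ∈ U) (j : ℕ) :
    Cond U x u (u₀ * x ^ j * g) := by
  obtain ⟨h1, h2⟩ := h
  have e1 : vv x (u₀ * x ^ j * g) = ((x ^ 5)⁻¹ * u₀ * x ^ 5 * u₀⁻¹) *
      (u₀ * x ^ j * vv x g * (u₀ * x ^ j)⁻¹) := by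
    unfold vv
    have e2 : x ^ 5 * x ^ j = x ^ j * x ^ 5 := by rw [← pow_add, ← pow_add, add_comm]
    have e3 : x ^ j * (x ^ 5)⁻¹ = (x ^ 5)⁻¹ * x ^ j := by
      rw [mul_inv_eq_iff_eq_mul, mul_assoc, ← e2, ← mul_assoc, inv_mul_cancel, one_mul]
    calc (x ^ 5)⁻¹ * (u₀ * x ^ j * g * x * (u₀ * x ^ j * g)⁻¹)
        = (x ^ 5)⁻¹ * u₀ * x ^ 5 * ((x ^ 5)⁻¹ * x ^ j) * (g * x * g⁻¹) * (u₀ * x ^ j)⁻¹ := by
          group
      _ = (x ^ 5)⁻¹ * u₀ * x ^ 5 * (x ^ j * (x ^ 5)⁻¹) * (g * x * g⁻¹) * (u₀ * x ^ j)⁻¹ := by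
          rw [e3]
      _ = _ := by group
  have m1 : (x ^ 5)⁻¹ * u₀ * x ^ 5 ∈ U := by
    have h := Subgroup.Normal.conj_mem (H := U) inferInstance _ hu₀ (x ^ 5)⁻¹
    rwa [inv_inv] at h
  have m2 : u₀ * x ^ j * vv x g * (u₀ * x ^ j)⁻¹ ∈ U :=
    Subgroup.Normal.conj_mem inferInstance _ h1 _
  refine ⟨?_, fun φ hφ => ?_⟩
  · rw [e1]
    exact mul_mem (mul_mem m1 (inv_mem hu₀)) m2
  · have e4 : u₀ * x ^ j * g * u * (u₀ * x ^ j * g)⁻¹ =
        u₀ * x ^ j * (g * u * g⁻¹) * (u₀ * x ^ j)⁻¹ := by group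
    have hgu : g * u * g⁻¹ ∈ U := Subgroup.Normal.conj_mem inferInstance u hu g
    rw [e4, inv_prod hφ j hu₀ hgu, e1, ev_mul φ (mul_mem m1 (inv_mem hu₀)) m2,
      inv_prod hφ j hu₀ h1, ev_mul φ m1 (inv_mem hu₀), ev_inv φ hu₀]
    have e5 : ev φ ((x ^ 5)⁻¹ * u₀ * x ^ 5) = ev φ u₀ := by
      rw [← inv_pow hφ 5 m1]
      congr 1
      group
    rw [e5, mul_inv_cancel, one_mul]
    exact h2 φ hφ

/-- the elements on which `g` acts trivially for the homomorphisms invariant under `x` -/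
noncomputable def KK (U : Subgroup G) [U.Normal] (x g : G) : Subgroup U :=
  ⨅ φ : Inv U x, (dl U g φ.1).ker

instance (x g : G) : (KK U x g).Normal := by
  unfold KK
  exact Subgroup.normal_iInf_normal fun φ => MonoidHom.normal_ker _

theorem mem_KK {x g : G} {u : U} : u ∈ KK U x g ↔
    ∀ φ ∈ Inv U x, ev φ (g * u * g⁻¹) = ev φ (u : G) := by
  unfold KK
  rw [Subgroup.mem_iInf]
  constructor
  · intro h φ hφ
    have h1 := h ⟨φ, hφ⟩
    rw [MonoidHom.mem_ker, ← ev_of (dl U g φ) u.2, ev_dl g φ u.2] at h1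
    have h2 : ev φ (g * u * g⁻¹) = (ev φ (u : G))⁻¹ := eq_inv_of_mul_eq_one_left h1
    rw [h2, inv_eq_iff_mul_eq_one, un_sq]
  · rintro h ⟨φ, hφ⟩
    rw [MonoidHom.mem_ker, ← ev_of (dl U g φ) u.2, ev_dl g φ u.2, h φ hφ, un_sq]

variable [Finite G]

theorem card_Inv_le (x g : G) : Nat.card (Inv U x) ≤
    Nat.card (Inv U x ⊓ Inv U g : Subgroup (U →* ℤˣ)) * (KK U x g).index := by
  have h1 := card_ker_range ((dl U g).comp (Inv U x).subtype)
  rw [h1, mul_comm]
  refine Nat.mul_le_mul ?_ ?_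
  · refine Nat.card_le_card_of_injective
      (fun ψ : ((dl U g).comp (Inv U x).subtype).ker =>
        (⟨ψ.1.1, ψ.1.2, dl_eq_one.1 ψ.2⟩ : (Inv U x ⊓ Inv U g : Subgroup (U →* ℤˣ)))) ?_
    intro a b h
    exact Subtype.ext (Subtype.ext (Subtype.mk.inj h))
  · have hk : ∀ ψ : ((dl U g).comp (Inv U x).subtype).range, KK U x g ≤ ψ.1.ker := by
      rintro ⟨ψ, φ, hφ⟩
      show KK U x g ≤ ψ.ker
      rw [← hφ]
      exact iInf_le (fun φ : Inv U x => (dl U g φ.1).ker) φ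
    have h2 : Nat.card ((dl U g).comp (Inv U x).subtype).range ≤
        Nat.card ((U ⧸ KK U x g) →* ℤˣ) := by
      refine Nat.card_le_card_of_injective
        (fun ψ => QuotientGroup.lift (KK U x g) ψ.1 fun a ha => hk ψ ha) ?_
      intro a b h
      apply Subtype.ext
      ext u : 1
      have h3 := DFunLike.congr_fun h (u : U ⧸ KK U x g)
      simpa using h3
    exact h2.trans (card_hom_le_card _)

/-- the covering argument -/
theorem cover (x : G) (e : ℕ) (he : 0 < e) (hx : ∀ i < e, ∀ j < e, x ^ i * (x ^ j)⁻¹ ∈ U → i = j)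
    (hc : ∀ u ∈ U, ∃ g, g * (x * u) * g⁻¹ = (x * u) ^ 5) :
    ∃ g, (∃ u ∈ U, Cond U x u g) ∧ Nat.card (Inv U x) * e ≤
      Nat.card (Inv U x ⊓ Inv U g : Subgroup (U →* ℤˣ)) * U.index := by
  classical
  have := Fintype.ofFinite G
  set Uf : Finset G := Finset.univ.filter (· ∈ U) with hUf
  have hUc : Uf.card = Nat.card U := by
    rw [hUf, Nat.card_eq_fintype_card, Fintype.card_subtype]
  have hmem : ∀ u, u ∈ Uf ↔ u ∈ U := fun u => by simp [hUf]
  have hT : ∀ u ∈ Uf, Nat.card U * e ≤ (Finset.univ.filter (Cond U x u)).card := by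
    intro u hu
    have huU := (hmem u).1 hu
    obtain ⟨g0, hg0⟩ := hc u huU
    have hcond := cond_of_conj huU hg0
    rw [← hUc, ← Finset.card_range e, ← Finset.card_product]
    refine Finset.card_le_card_of_injOn (fun q => q.1 * x ^ q.2 * g0) ?_ ?_
    · rintro ⟨a, j⟩ haj
      have h1 := Finset.mem_product.1 (Finset.mem_coe.1 haj)
      refine Finset.mem_coe.2 (Finset.mem_filter.2 ⟨Finset.mem_univ _, ?_⟩)
      exact cond_mul huU hcond ((hmem a).1 h1.1) j
    · rintro ⟨a, i⟩ hai ⟨b, j⟩ hbj hab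
      have h1 := Finset.mem_product.1 (Finset.mem_coe.1 hai)
      have h2 := Finset.mem_product.1 (Finset.mem_coe.1 hbj)
      have h3 : a * x ^ i = b * x ^ j := mul_right_cancel hab
      have h4 : x ^ i * (x ^ j)⁻¹ = a⁻¹ * b := by
        rw [mul_inv_eq_iff_eq_mul, mul_assoc, ← h3, ← mul_assoc, inv_mul_cancel, one_mul]
      have h5 : i = j := hx i (Finset.mem_range.1 h1.2) j (Finset.mem_range.1 h2.2) (by
        rw [h4]
        exact mul_mem (inv_mem ((hmem a).1 h1.1)) ((hmem b).1 h2.1))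
      subst h5
      rw [mul_right_cancel h3]
  have hdc : ∑ u ∈ Uf, (Finset.univ.filter (Cond U x u)).card =
      ∑ g : G, (Uf.filter fun u => Cond U x u g).card :=
    Finset.sum_card_bipartiteAbove_eq_sum_card_bipartiteBelow (Cond U x)
  have hsum : Nat.card U * (Nat.card U * e) ≤ ∑ g : G, (Uf.filter fun u => Cond U x u g).card := by
    rw [← hdc]
    calc Nat.card U * (Nat.card U * e) = ∑ _u ∈ Uf, Nat.card U * e := by
          rw [Finset.sum_const, hUc, smul_eq_mul]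
      _ ≤ _ := Finset.sum_le_sum hT
  obtain ⟨g, hg⟩ : ∃ g : G, Nat.card U * (Nat.card U * e) ≤
      Nat.card G * (Uf.filter fun u => Cond U x u g).card := by
    by_contra hcon
    push Not at hcon
    have h1 : ∑ g : G, Nat.card G * (Uf.filter fun u => Cond U x u g).card <
        ∑ _g : G, Nat.card U * (Nat.card U * e) :=
      Finset.sum_lt_sum_of_nonempty Finset.univ_nonempty fun g _ => hcon g
    rw [← Finset.mul_sum, Finset.sum_const, Finset.card_univ, ← Nat.card_eq_fintype_card,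
      smul_eq_mul] at h1
    exact absurd (Nat.mul_le_mul_left (Nat.card G) hsum) (not_le.2 h1)
  have hUpos : 0 < Nat.card U := Nat.card_pos
  have hne : (Uf.filter fun u => Cond U x u g).Nonempty := by
    rw [← Finset.card_pos]
    by_contra h
    rw [Nat.eq_zero_of_not_pos h, mul_zero] at hg
    exact absurd hg (not_le.2 (by positivity))
  obtain ⟨u1, hu1⟩ := hne
  have hu1' := Finset.mem_filter.1 hu1
  have hu1U := (hmem u1).1 hu1'.1
  have hBK : (Uf.filter fun u => Cond U x u g).card ≤ Nat.card (KK U x g) := by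
    have hK : ∀ u ∈ Uf.filter (fun u => Cond U x u g), ∃ h : u1⁻¹ * u ∈ U,
        (⟨u1⁻¹ * u, h⟩ : U) ∈ KK U x g := by
      intro u hu
      have hu' := Finset.mem_filter.1 hu
      have huU := (hmem u).1 hu'.1
      refine ⟨mul_mem (inv_mem hu1U) huU, mem_KK.2 fun φ hφ => ?_⟩
      show ev φ (g * (u1⁻¹ * u) * g⁻¹) = ev φ (u1⁻¹ * u)
      have n1 : g * u1 * g⁻¹ ∈ U := Subgroup.Normal.conj_mem inferInstance u1 hu1U g
      have n2 : g * u * g⁻¹ ∈ U := Subgroup.Normal.conj_mem inferInstance u huU g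
      have e1 : g * (u1⁻¹ * u) * g⁻¹ = (g * u1 * g⁻¹)⁻¹ * (g * u * g⁻¹) := by group
      rw [e1, ev_mul φ (inv_mem n1) n2, ev_inv φ n1, ev_mul φ (inv_mem hu1U) huU,
        ev_inv φ hu1U, ← hu1'.2.2 φ hφ, ← hu'.2.2 φ hφ, mul_inv]
      rw [mul_mul_mul_comm, inv_mul_cancel, one_mul]
    have h1 : (Uf.filter fun u => Cond U x u g).card ≤
        Nat.card (KK U x g) := by
      rw [← Fintype.card_coe, ← Nat.card_eq_fintype_card]
      refine Nat.card_le_card_of_injective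
        (fun u : (Uf.filter fun u => Cond U x u g) =>
          (⟨⟨u1⁻¹ * u.1, (hK u.1 u.2).1⟩, (hK u.1 u.2).2⟩ : KK U x g)) ?_
      intro a b h
      apply Subtype.ext
      exact mul_left_cancel (Subtype.mk.inj (Subtype.mk.inj h))
    exact h1
  refine ⟨g, ⟨u1, hu1U, hu1'.2⟩, ?_⟩
  have h1 : Nat.card U * (Nat.card U * e) ≤ Nat.card G * Nat.card (KK U x g) :=
    hg.trans (Nat.mul_le_mul_left _ hBK)
  have h2 : (KK U x g).index * Nat.card (KK U x g) = Nat.card U := Subgroup.index_mul_card _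
  have h3 : U.index * Nat.card U = Nat.card G := Subgroup.index_mul_card _
  have hKpos : 0 < Nat.card (KK U x g) := Nat.card_pos
  have h4 : (KK U x g).index * e ≤ U.index := by
    have h5 : (Nat.card (KK U x g) * Nat.card U) * ((KK U x g).index * e) ≤
        (Nat.card (KK U x g) * Nat.card U) * U.index := by
      calc (Nat.card (KK U x g) * Nat.card U) * ((KK U x g).index * e)
          = Nat.card U * (((KK U x g).index * Nat.card (KK U x g)) * e) := by ring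
        _ = Nat.card U * (Nat.card U * e) := by rw [h2]
        _ ≤ Nat.card G * Nat.card (KK U x g) := h1
        _ = (Nat.card (KK U x g) * Nat.card U) * U.index := by rw [← h3]; ring
    exact Nat.le_of_mul_le_mul_left h5 (by positivity)
  calc Nat.card (Inv U x) * e ≤
      Nat.card (Inv U x ⊓ Inv U g : Subgroup (U →* ℤˣ)) * (KK U x g).index * e :=
        Nat.mul_le_mul_right e (card_Inv_le x g)
    _ = Nat.card (Inv U x ⊓ Inv U g : Subgroup (U →* ℤˣ)) * ((KK U x g).index * e) := by ring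
    _ ≤ _ := Nat.mul_le_mul_left _ h4

end

end Pool.Agent.H40.RG
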