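import Pool.Agent.H40.RG.Cover

/-!
# MP_cc8356_al: extension of homomorphisms to cyclic extensions (helper40)
-/

set_option autoImplicit false

namespace Pool.Agent.H40.RG

section

variable {G : Type*} [Group G] (N : Subgroup G) (t : G)

/-- `t` normalises `N` -/
def Nz : Prop := ∀ a : G, a ∈ N ↔ t * a * t⁻¹ ∈ N

variable {N t}

theorem Nz.inv (h : Nz N t) (a : G) : a ∈ N ↔ t⁻¹ * a * t ∈ N := by
  rw [h (t⁻¹ * a * t)]
  have e : t * (t⁻¹ * a * t) * t⁻¹ = a := by group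
  rw [e]

theorem Nz.zpow (h : Nz N t) (k : ℤ) (a : G) : a ∈ N ↔ t ^ k * a * (t ^ k)⁻¹ ∈ N := by
  induction k using Int.induction_on with
  | zero => simp
  | succ i ih =>
    have e : t ^ ((i : ℤ) + 1) * a * (t ^ ((i : ℤ) + 1))⁻¹ =
        t * (t ^ (i : ℤ) * a * (t ^ (i : ℤ))⁻¹) * t⁻¹ := by
      rw [add_comm, zpow_add, zpow_one]
      group
    rw [e, ← h]
    exact ih
  | pred i ih =>
    have e : t ^ (-(i : ℤ) - 1) * a * (t ^ (-(i : ℤ) - 1))⁻¹ =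
        t⁻¹ * (t ^ (-(i : ℤ)) * a * (t ^ (-(i : ℤ)))⁻¹) * t := by
      rw [sub_eq_neg_add, zpow_add, zpow_neg_one]
      group
    rw [e, ← h.inv]
    exact ih

/-- the subgroup generated by `N` and `t` -/
def adj (N : Subgroup G) (t : G) (h : Nz N t) : Subgroup G where
  carrier := {a | ∃ k : ℤ, a * t ^ k ∈ N}
  one_mem' := ⟨0, by simp [one_mem]⟩
  mul_mem' := by
    rintro a b ⟨k, hk⟩ ⟨l, hl⟩
    refine ⟨l + k, ?_⟩
    have h1 : (t ^ k)⁻¹ * (b * t ^ l) * t ^ k ∈ N := by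
      have h2 := (h.zpow (-k) (b * t ^ l)).1 hl
      rwa [zpow_neg, inv_inv] at h2
    have e : a * b * t ^ (l + k) = (a * t ^ k) * ((t ^ k)⁻¹ * (b * t ^ l) * t ^ k) := by
      rw [zpow_add]
      group
    rw [e]
    exact mul_mem hk h1
  inv_mem' := by
    rintro a ⟨k, hk⟩
    refine ⟨-k, ?_⟩
    have h1 := inv_mem hk
    have h2 := (h.zpow k _).1 h1
    have e : t ^ k * (a * t ^ k)⁻¹ * (t ^ k)⁻¹ = a⁻¹ * t ^ (-k) := by
      rw [mul_inv_rev, zpow_neg]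
      group
    rwa [e] at h2

theorem mem_adj {h : Nz N t} {a : G} : a ∈ adj N t h ↔ ∃ k : ℤ, a * t ^ k ∈ N := Iff.rfl

theorem le_adj (h : Nz N t) : N ≤ adj N t h := fun a ha => ⟨0, by simpa using ha⟩

theorem t_mem_adj (h : Nz N t) : t ∈ adj N t h := ⟨-1, by simp [one_mem]⟩

/-- extension of a homomorphism -/
theorem ext1 [Finite G] (h : Nz N t) (φ : N →* ℤˣ)
    (hi : ∀ a ∈ N, ev φ (t * a * t⁻¹) = ev φ a)
    (h0 : ∀ k : ℕ, t ^ k ∈ N → ev φ (t ^ k) = 1) :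
    ∃ ψ : adj N t h →* ℤˣ, (∀ a ∈ N, ev ψ a = ev φ a) ∧ ev ψ t = 1 := by
  classical
  have hiz : ∀ (k : ℤ) (a : G), a ∈ N → ev φ (t ^ k * a * (t ^ k)⁻¹) = ev φ a := by
    intro k a ha
    obtain ⟨j, hj⟩ : ∃ j : ℕ, t ^ k = t ^ j := by
      have h1 : t ^ k ∈ Subgroup.zpowers t := ⟨k, rfl⟩
      rw [← mem_powers_iff_mem_zpowers] at h1
      obtain ⟨j, hj⟩ := h1
      exact ⟨j, hj.symm⟩
    rw [hj]
    clear hj
    induction j with
    | zero => simp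
    | succ j ih =>
      have e : t ^ (j + 1) * a * (t ^ (j + 1))⁻¹ = t * (t ^ j * a * (t ^ j)⁻¹) * t⁻¹ := by
        rw [pow_succ' t j]
        group
      have hm : t ^ j * a * (t ^ j)⁻¹ ∈ N := by
        have := (h.zpow (j : ℤ) a).1 ha
        rwa [zpow_natCast] at this
      rw [e, hi _ hm, ih]
  have h0z : ∀ k : ℤ, t ^ k ∈ N → ev φ (t ^ k) = 1 := by
    intro k hk
    obtain ⟨j, hj⟩ : ∃ j : ℕ, t ^ k = t ^ j := by
      have h1 : t ^ k ∈ Subgroup.zpowers t := ⟨k, rfl⟩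
      rw [← mem_powers_iff_mem_zpowers] at h1
      obtain ⟨j, hj⟩ := h1
      exact ⟨j, hj.symm⟩
    rw [hj] at hk ⊢
    exact h0 j hk
  have huniq : ∀ (a : G) (k l : ℤ), a * t ^ k ∈ N → a * t ^ l ∈ N →
      ev φ (a * t ^ k) = ev φ (a * t ^ l) := by
    intro a k l hk hl
    have e : (a * t ^ k)⁻¹ * (a * t ^ l) = t ^ (l - k) := by
      have e1 : (a * t ^ k)⁻¹ * (a * t ^ l) = (t ^ k)⁻¹ * t ^ l := by group
      rw [e1, ← zpow_neg, ← zpow_add]
      congr 1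
      ring
    have hm : t ^ (l - k) ∈ N := by
      rw [← e]
      exact mul_mem (inv_mem hk) hl
    have h1 := h0z _ hm
    rw [← e, ev_mul φ (inv_mem hk) hl, ev_inv φ hk, inv_mul_eq_one] at h1
    exact h1
  set F : G → ℤˣ := fun a => if hk : ∃ k : ℤ, a * t ^ k ∈ N then ev φ (a * t ^ hk.choose) else 1
    with hF
  have hFe : ∀ (a : G) (k : ℤ), a * t ^ k ∈ N → F a = ev φ (a * t ^ k) := by
    intro a k hk
    have hex : ∃ k : ℤ, a * t ^ k ∈ N := ⟨k, hk⟩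
    rw [hF]
    simp only [dif_pos hex]
    exact huniq a _ k hex.choose_spec hk
  set ψ : adj N t h →* ℤˣ := MonoidHom.mk' (fun a => F a) (by
    rintro ⟨a, k, hk⟩ ⟨b, l, hl⟩
    show F (a * b) = F a * F b
    have h1 : (t ^ k)⁻¹ * (b * t ^ l) * t ^ k ∈ N := by
      have h2 := (h.zpow (-k) (b * t ^ l)).1 hl
      rwa [zpow_neg, inv_inv] at h2
    have e : a * b * t ^ (l + k) = (a * t ^ k) * ((t ^ k)⁻¹ * (b * t ^ l) * t ^ k) := by
      rw [zpow_add]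
      group
    have hm : a * b * t ^ (l + k) ∈ N := by
      rw [e]
      exact mul_mem hk h1
    rw [hFe _ _ hm, hFe a k hk, hFe b l hl, e, ev_mul φ hk h1]
    congr 1
    have h3 := hiz (-k) _ hl
    rwa [zpow_neg, inv_inv] at h3) with hψ
  have hev : ∀ a ∈ adj N t h, ev ψ a = F a := fun a ha => by
    rw [ev_of ψ ha]
    rfl
  refine ⟨ψ, fun a ha => ?_, ?_⟩
  · rw [hev a (le_adj h ha), hFe a 0 (by simpa using ha), zpow_zero, mul_one]
  · rw [hev t (t_mem_adj h), hFe t (-1) (by simp [one_mem])]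
    simp [ev_one]

/-- the order of the extension -/
theorem card_adj [Finite G] (h : Nz N t) (m : ℕ) (hm : ∀ i < m, ∀ j < m,
    t ^ i * (t ^ j)⁻¹ ∈ N → i = j) : Nat.card N * m ≤ Nat.card (adj N t h) := by
  have h1 : Nat.card N * m = Nat.card (N × Fin m) := by
    rw [Nat.card_prod, Nat.card_eq_fintype_card (α := Fin m), Fintype.card_fin]
  rw [h1]
  refine Nat.card_le_card_of_injective (fun q : N × Fin m =>
    (⟨q.1.1 * t ^ (q.2 : ℕ), mul_mem (le_adj h q.1.2) (pow_mem (t_mem_adj h) _)⟩ :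
      adj N t h)) ?_
  rintro ⟨⟨a, ha⟩, i⟩ ⟨⟨b, hb⟩, j⟩ hab
  have h2 : a * t ^ (i : ℕ) = b * t ^ (j : ℕ) := Subtype.mk.inj hab
  have h4 : t ^ (i : ℕ) * (t ^ (j : ℕ))⁻¹ = a⁻¹ * b := by
    rw [mul_inv_eq_iff_eq_mul, mul_assoc, ← h2, ← mul_assoc, inv_mul_cancel, one_mul]
  have h5 : (i : ℕ) = j := hm i i.2 j j.2 (by
    rw [h4]
    exact mul_mem (inv_mem ha) hb)
  have h6 : i = j := Fin.ext h5
  subst h6
  have h7 : a = b := mul_right_cancel h2
  subst h7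
  rfl

theorem Nz_of [Finite G] (h : ∀ a ∈ N, t * a * t⁻¹ ∈ N) : Nz N t := by
  have h1 : t ∈ Subgroup.normalizer N := Subgroup.mem_normalizer_fintype (S := (N : Set G)) h
  exact fun a => Subgroup.mem_normalizer_iff.1 h1 a

end

end Pool.Agent.H40.RG
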