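import Pool.Agent.H40.RG.Burn

/-!
# MP_cc8356_al: the bound for the number of generators (helper40)
-/

set_option autoImplicit false

namespace Pool.Agent.H40.RG

section

variable {G : Type*} [Group G]

theorem distinct_of {N : Subgroup G} {t : G} {e : ℕ} (hN : ∀ k : ℕ, t ^ k ∈ N → e ∣ k) :
    ∀ i < e, ∀ j < e, t ^ i * (t ^ j)⁻¹ ∈ N → i = j := by
  have key : ∀ i < e, ∀ j ≤ i, t ^ i * (t ^ j)⁻¹ ∈ N → i = j := by
    intro i hi j hj h
    have h1 : t ^ i * (t ^ j)⁻¹ = t ^ (i - j) := by rw [pow_sub t hj]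
    rw [h1] at h
    have h2 : i - j < e := lt_of_le_of_lt (Nat.sub_le i j) hi
    have h3 := Nat.eq_zero_of_dvd_of_lt (hN _ h) h2
    omega
  intro i hi j hj h
  rcases le_total j i with hij | hij
  · exact key i hi j hij h
  · refine (key j hj i hij ?_).symm
    have h1 := inv_mem h
    rwa [mul_inv_rev, inv_inv] at h1

/-- the homomorphisms in `W` which are trivial at `c` -/
def Wc {U : Subgroup G} (W : Subgroup (U →* ℤˣ)) (c : G) : Subgroup (U →* ℤˣ) where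
  carrier := {φ | φ ∈ W ∧ ev φ c = 1}
  one_mem' := ⟨one_mem W, ev_one_hom c⟩
  mul_mem' {φ ψ} h1 h2 := ⟨mul_mem h1.1 h2.1, by rw [ev_mul_hom, h1.2, h2.2, one_mul]⟩
  inv_mem' {φ} h1 := ⟨inv_mem h1.1, by rw [ev_inv_hom, h1.2, inv_one]⟩

theorem card_Wc [Finite G] {U : Subgroup G} (W : Subgroup (U →* ℤˣ)) (c : G) :
    Nat.card W ≤ 2 * Nat.card (Wc W c) := by
  classical
  set f : W →* ℤˣ :=
    { toFun := fun φ => ev φ.1 c
      map_one' := ev_one_hom c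
      map_mul' := fun φ ψ => ev_mul_hom φ.1 ψ.1 c } with hf
  have h1 := card_ker_range f
  have h2 : Nat.card f.range ≤ 2 := by
    have h3 := Subgroup.card_le_card_group f.range
    rwa [Nat.card_eq_fintype_card (α := ℤˣ), Fintype.card_units_int] at h3
  have h4 : Nat.card f.ker ≤ Nat.card (Wc W c) := by
    refine Nat.card_le_card_of_injective
      (fun φ : f.ker => (⟨φ.1.1, φ.1.2, φ.2⟩ : Wc W c)) ?_
    intro φ ψ h
    exact Subtype.ext (Subtype.ext (Subtype.mk.inj h))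
  rw [h1]
  exact Nat.mul_le_mul h2 h4

variable {U : Subgroup G} [U.Normal]

theorem mem_iff_mk {a : G} : a ∈ U ↔ (a : G ⧸ U) = 1 := (QuotientGroup.eq_one_iff a).symm

theorem pow_mem_iff {x : G} {e : ℕ} (hx : orderOf (x : G ⧸ U) = e) (k : ℕ) :
    x ^ k ∈ U ↔ e ∣ k := by
  rw [mem_iff_mk, QuotientGroup.mk_pow, ← hx, orderOf_dvd_iff_pow_eq_one]

theorem conj_it {Q : Type*} [Group Q] {x g : Q} (h : g * x * g⁻¹ = x ^ 5) (m : ℕ) :
    g ^ m * x * (g ^ m)⁻¹ = x ^ (5 ^ m) := by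
  induction m with
  | zero => simp
  | succ m ih =>
    have h1 : g ^ (m + 1) * x * (g ^ (m + 1))⁻¹ = g * (g ^ m * x * (g ^ m)⁻¹) * g⁻¹ := by
      rw [pow_succ' g m]
      group
    rw [h1, ih, ← conj_pow, h, ← pow_mul, pow_succ' 5 m]

theorem four_mul_ge {Q : Type*} [Group Q] {x g : Q} {a m : ℕ} (ha : 2 ≤ a) (hm : 0 < m)
    (hx : orderOf x = 2 ^ a) (h : g * x * g⁻¹ = x ^ 5) (hg : g ^ m * x = x * g ^ m) :
    2 ^ a ≤ 4 * m := by
  have h1 := conj_it h m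
  rw [hg, mul_inv_cancel_right] at h1
  have h2 : x ^ (5 ^ m) = x ^ 1 := by rw [← h1, pow_one]
  rw [pow_eq_pow_iff_modEq, hx] at h2
  obtain ⟨b, rfl⟩ := Nat.exists_eq_add_of_le' ha
  have h3 : (5 : ZMod (2 ^ (b + 2))) ^ m = 1 := by
    have h4 := (ZMod.natCast_eq_natCast_iff _ _ _).2 h2
    push_cast at h4
    exact h4
  have h5 := orderOf_dvd_of_pow_eq_one h3
  rw [ZMod.orderOf_five] at h5
  have h6 := Nat.le_of_dvd hm h5
  rw [pow_add]
  omega

variable [Finite G]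

theorem bound (hp : IsPGroup 2 G) (x : G) (a : ℕ) (ha : 2 ≤ a)
    (hx : orderOf (x : G ⧸ U) = 2 ^ a) (hc : ∀ u ∈ U, ∃ g, g * (x * u) * g⁻¹ = (x * u) ^ 5) :
    2 ^ a * Group.rank U ≤
      4 * Group.rank G * U.index + 4 ^ a * (Nat.log 2 U.index + 2 - a) := by
  classical
  have he : 0 < 2 ^ a := pow_pos two_pos a
  obtain ⟨g, ⟨u, hu, hcond⟩, hcov⟩ := cover x (2 ^ a) he
    (distinct_of fun k hk => (pow_mem_iff hx k).1 hk) hc
  have hgx : (g : G ⧸ U) * (x : G ⧸ U) * (g : G ⧸ U)⁻¹ = (x : G ⧸ U) ^ 5 := by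
    have h1 := mem_iff_mk.1 hcond.1
    unfold vv at h1
    have h2 : ((x : G ⧸ U) ^ 5)⁻¹ * ((g : G ⧸ U) * (x : G ⧸ U) * (g : G ⧸ U)⁻¹) = 1 := h1
    exact (inv_mul_eq_one.1 h2).symm
  have hNx : Nz U x := Nz_of fun b hb => Subgroup.Normal.conj_mem inferInstance b hb x
  set U1 := adj U x hNx with hU1
  have hU1x : x ∈ U1 := t_mem_adj hNx
  have hUU1 : U ≤ U1 := le_adj hNx
  have hgxU : g * x * g⁻¹ = x ^ 5 * vv x g := by
    unfold vv
    rw [mul_inv_cancel_left]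
  have hgxm : g * x * g⁻¹ ∈ U1 := by
    rw [hgxU]
    exact mul_mem (pow_mem hU1x 5) (hUU1 hcond.1)
  have hNg : Nz U1 g := Nz_of fun b hb => by
    obtain ⟨k, hk⟩ := mem_adj.1 hb
    have e1 : g * b * g⁻¹ = (g * (b * x ^ k) * g⁻¹) * (g * x * g⁻¹) ^ (-k) := by
      rw [conj_zpow]
      group
    rw [e1]
    exact mul_mem (hUU1 (Subgroup.Normal.conj_mem inferInstance _ hk g)) (zpow_mem hgxm _)
  have hex : ∃ m : ℕ, 0 < m ∧ g ^ m ∈ U1 :=
    ⟨orderOf g, orderOf_pos g, by rw [pow_orderOf_eq_one]; exact one_mem _⟩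
  set m := Nat.find hex with hm
  have hm0 : 0 < m := (Nat.find_spec hex).1
  have hmU : g ^ m ∈ U1 := (Nat.find_spec hex).2
  have hmd : ∀ k : ℕ, g ^ k ∈ U1 → m ∣ k := by
    intro k hk
    rw [Nat.dvd_iff_mod_eq_zero]
    by_contra hne
    have h1 : g ^ (k % m) ∈ U1 := by
      have h2 : g ^ (k % m) = g ^ k * ((g ^ m) ^ (k / m))⁻¹ := by
        rw [eq_mul_inv_iff_mul_eq, ← pow_mul, ← pow_add, Nat.mod_add_div]
      rw [h2]
      exact mul_mem hk (inv_mem (pow_mem hmU _))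
    exact Nat.find_min hex (Nat.mod_lt k hm0) ⟨Nat.pos_of_ne_zero hne, h1⟩
  obtain ⟨k0, hk0⟩ := mem_adj.1 hmU
  have hcomm : (g : G ⧸ U) ^ m * (x : G ⧸ U) = (x : G ⧸ U) * (g : G ⧸ U) ^ m := by
    have h1 : (g : G ⧸ U) ^ m * (x : G ⧸ U) ^ k0 = 1 := mem_iff_mk.1 hk0
    rw [eq_inv_of_mul_eq_one_left h1, ← zpow_neg, ← zpow_add_one, ← zpow_one_add, add_comm]
  have h4m : 2 ^ a ≤ 4 * m := four_mul_ge ha hm0 hx hgx hcomm
  set U2 := adj U1 g hNg with hU2
  set W : Subgroup (U →* ℤˣ) := Inv U x ⊓ Inv U g with hW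
  set W3 : Subgroup (U →* ℤˣ) := Wc (Wc W (x ^ (2 ^ a))) (g ^ m * x ^ k0) with hW3
  have hWW : Nat.card W ≤ 4 * Nat.card W3 := by
    have h1 := card_Wc W (x ^ (2 ^ a))
    have h2 := card_Wc (Wc W (x ^ (2 ^ a))) (g ^ m * x ^ k0)
    rw [← hW3] at h2
    omega
  have hext : ∀ φ ∈ W3, ∃ ψ : U2 →* ℤˣ, ∀ b ∈ U, ev ψ b = ev φ b := by
    intro φ hφ
    obtain ⟨⟨⟨hφx, hφg⟩, hφe⟩, hφw⟩ := hφ
    have hxe : x ^ (2 ^ a) ∈ U := (pow_mem_iff hx _).2 dvd_rfl
    obtain ⟨ψ1, h11, h12⟩ := ext1 hNx φ hφx (fun k hk => by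
      obtain ⟨q, rfl⟩ := (pow_mem_iff hx k).1 hk
      rw [pow_mul, ev_pow φ hxe, hφe, one_pow])
    have h12z : ∀ k : ℤ, ev ψ1 (x ^ k) = 1 := by
      intro k
      have h1 : x ^ k ∈ Subgroup.zpowers x := ⟨k, rfl⟩
      rw [← mem_powers_iff_mem_zpowers] at h1
      obtain ⟨j, hj⟩ := h1
      have hj' : x ^ j = x ^ k := hj
      rw [← hj', ev_pow ψ1 hU1x, h12, one_pow]
    have hgxv : ev ψ1 (g * x * g⁻¹) = 1 := by
      rw [hgxU, ev_mul ψ1 (pow_mem hU1x 5) (hUU1 hcond.1), ev_pow ψ1 hU1x, h12, one_pow, one_mul,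
        h11 _ hcond.1]
      have h1 := hcond.2 φ hφx
      rw [hφg u hu] at h1
      exact mul_eq_right.1 h1
    obtain ⟨ψ2, h21, h22⟩ := ext1 hNg ψ1 (fun b hb => by
      obtain ⟨k, hk⟩ := mem_adj.1 hb
      have e1 : g * b * g⁻¹ = (g * (b * x ^ k) * g⁻¹) * (g * x * g⁻¹) ^ (-k) := by
        rw [conj_zpow]
        group
      have hgk : g * (b * x ^ k) * g⁻¹ ∈ U := Subgroup.Normal.conj_mem inferInstance _ hk g
      have hz : ev ψ1 ((g * x * g⁻¹) ^ (-k)) = 1 := by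
        have h1 : (g * x * g⁻¹) ^ (-k) ∈ Subgroup.zpowers (g * x * g⁻¹) := ⟨-k, rfl⟩
        rw [← mem_powers_iff_mem_zpowers] at h1
        obtain ⟨j, hj⟩ := h1
        have hj' : (g * x * g⁻¹) ^ j = (g * x * g⁻¹) ^ (-k) := hj
        rw [← hj', ev_pow ψ1 hgxm, hgxv, one_pow]
      have e2 : b = (b * x ^ k) * x ^ (-k) := by
        rw [zpow_neg, mul_inv_cancel_right]
      rw [e1, ev_mul ψ1 (hUU1 hgk) (zpow_mem hgxm _), hz, mul_one, h11 _ hgk, hφg _ hk]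
      conv_rhs => rw [e2]
      rw [ev_mul ψ1 (hUU1 hk) (zpow_mem hU1x _), h12z, mul_one, h11 _ hk]) (fun k hk => by
      obtain ⟨q, rfl⟩ := hmd k hk
      have e3 : g ^ m = (g ^ m * x ^ k0) * x ^ (-k0) := by
        rw [zpow_neg, mul_inv_cancel_right]
      have e4 : ev ψ1 (g ^ m) = 1 := by
        rw [e3, ev_mul ψ1 (hUU1 hk0) (zpow_mem hU1x _), h12z, mul_one, h11 _ hk0, hφw]
      rw [pow_mul, ev_pow ψ1 hmU, e4, one_pow])
    exact ⟨ψ2, fun b hb => by rw [h21 b (hUU1 hb), h11 b hb]⟩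
  have hW3c : Nat.card W3 ≤ Nat.card (U2 →* ℤˣ) := by
    choose ψ hψ using hext
    refine Nat.card_le_card_of_injective (fun φ : W3 => ψ φ.1 φ.2) ?_
    intro φ φ' h
    apply Subtype.ext
    apply ext_ev
    intro b hb
    have h' : ψ φ.1 φ.2 = ψ φ'.1 φ'.2 := h
    rw [← hψ φ.1 φ.2 b hb, ← hψ φ'.1 φ'.2 b hb, h']
  have hr : Nat.card (U2 →* ℤˣ) ≤ 2 ^ (U2.index * Group.rank G) :=
    (card_hom_le_rank (A := U2)).trans
      (Nat.pow_le_pow_right two_pos (Subgroup.rank_le_index_mul_rank U2))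
  have hcU1 : Nat.card U * 2 ^ a ≤ Nat.card U1 :=
    card_adj hNx _ (distinct_of fun k hk => (pow_mem_iff hx k).1 hk)
  have hcU2 : Nat.card U1 * m ≤ Nat.card U2 := card_adj hNg _ (distinct_of hmd)
  have hUpos : 0 < Nat.card U := Nat.card_pos
  have hi1 : U.index * Nat.card U = Nat.card G := Subgroup.index_mul_card _
  have hi2 : U2.index * Nat.card U2 = Nat.card G := Subgroup.index_mul_card _
  have hind : U2.index * 4 ^ a ≤ 4 * U.index := by
    have h1 : Nat.card U * (U2.index * 4 ^ a) ≤ Nat.card U * (4 * U.index) := by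
      calc Nat.card U * (U2.index * 4 ^ a) = U2.index * ((Nat.card U * 2 ^ a) * 2 ^ a) := by
            rw [show (4 : ℕ) = 2 * 2 from rfl, mul_pow]; ring
        _ ≤ U2.index * (Nat.card U1 * (4 * m)) :=
            Nat.mul_le_mul_left _ (Nat.mul_le_mul hcU1 h4m)
        _ = 4 * (U2.index * (Nat.card U1 * m)) := by ring
        _ ≤ 4 * (U2.index * Nat.card U2) :=
            Nat.mul_le_mul_left _ (Nat.mul_le_mul_left _ hcU2)
        _ = Nat.card U * (4 * U.index) := by rw [hi2, ← hi1]; ring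
    exact Nat.le_of_mul_le_mul_left h1 hUpos
  obtain ⟨ν, hν⟩ := IsPGroup.index (p := 2) hp U
  have haν : a ≤ ν := by
    have h1 : orderOf (x : G ⧸ U) ∣ Nat.card (G ⧸ U) := orderOf_dvd_natCard _
    have h2 : Nat.card (G ⧸ U) = U.index := rfl
    rw [hx, h2, hν] at h1
    exact (Nat.pow_dvd_pow_iff_le_right (by norm_num)).1 h1
  have hlog : Nat.log 2 U.index = ν := by rw [hν, Nat.log_pow (by norm_num)]
  have hInv : Nat.card (Inv U x) ≤ 2 ^ (2 + U2.index * Group.rank G + (ν - a)) := by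
    have h1 : Nat.card (Inv U x) * 2 ^ a ≤
        2 ^ (2 + U2.index * Group.rank G + (ν - a)) * 2 ^ a := by
      calc Nat.card (Inv U x) * 2 ^ a ≤ Nat.card W * U.index := hcov
        _ ≤ (4 * 2 ^ (U2.index * Group.rank G)) * 2 ^ ν := by
            rw [hν]
            refine Nat.mul_le_mul_right _ (hWW.trans (Nat.mul_le_mul_left _ ?_))
            exact hW3c.trans hr
        _ = 2 ^ (2 + U2.index * Group.rank G + (ν - a)) * 2 ^ a := by
            rw [← pow_add, show 2 + U2.index * Group.rank G + (ν - a) + a =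
              2 + U2.index * Group.rank G + ν by omega, pow_add, pow_add]
            norm_num
    exact Nat.le_of_mul_le_mul_right h1 he
  have hfin : Group.rank U ≤ (2 + U2.index * Group.rank G + (ν - a)) * 2 ^ a := by
    have h1 : 2 ^ Group.rank U ≤ 2 ^ ((2 + U2.index * Group.rank G + (ν - a)) * 2 ^ a) := by
      refine (two_pow_rank_le (hp.to_subgroup U)).trans ?_
      refine (card_Hom_le a x ((pow_mem_iff hx _).2 dvd_rfl)).trans ?_
      rw [pow_mul]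
      exact Nat.pow_le_pow_left hInv _
    exact (Nat.pow_le_pow_iff_right (by norm_num)).1 h1
  rw [hlog]
  have h44 : (4 : ℕ) ^ a = 2 ^ a * 2 ^ a := by rw [show (4 : ℕ) = 2 * 2 from rfl, mul_pow]
  calc 2 ^ a * Group.rank U
      ≤ 2 ^ a * ((2 + U2.index * Group.rank G + (ν - a)) * 2 ^ a) := Nat.mul_le_mul_left _ hfin
    _ = (U2.index * 4 ^ a) * Group.rank G + 4 ^ a * (ν - a + 2) := by rw [h44]; ring
    _ ≤ (4 * U.index) * Group.rank G + 4 ^ a * (ν - a + 2) :=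
        Nat.add_le_add_right (Nat.mul_le_mul_right _ hind) _
    _ = 4 * Group.rank G * U.index + 4 ^ a * (ν + 2 - a) := by
        rw [show ν - a + 2 = ν + 2 - a by omega]; ring

end

end Pool.Agent.H40.RG
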